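import Pool.Agent.L0h54.VR.Stm
import Pool.Agent.L0h54.RM.Count2

/-!
# Project VR, module CNT: pairs of pairs with square product in two windows
-/

set_option autoImplicit false

namespace Pool.Agent.L0h92.VR

open Finset
open scoped Classical
open Pool.Agent.L0h54.RM (Wn mem_Wn N22 N22_avg)
open Pool.Agent.L0h54.GC (CC sqi sqi_nonneg)

/-- from the sets with two elements to the pairs -/
lemma sum_two_le (W : Finset ℕ) (g : ℕ → ℝ) (hg : ∀ n, 0 ≤ g n) :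
    ∑ T ∈ W.powersetCard 2, g (∏ n ∈ T, n) ≤
      ∑ m ∈ W, ∑ m2 ∈ W, if m ≠ m2 then g (m * m2) else 0 := by
  obtain ⟨P, hP⟩ : ∃ P : Finset (ℕ × ℕ), P = (W ×ˢ W).filter (fun x => x.1 < x.2) := ⟨_, rfl⟩
  have hsub : W.powersetCard 2 ⊆ P.image (fun x => ({x.1, x.2} : Finset ℕ)) := by
    intro T hT
    rw [mem_powersetCard, card_eq_two] at hT
    obtain ⟨hTW, x, y, hxy, rfl⟩ := hT
    have hx : x ∈ W := hTW (by simp)
    have hy : y ∈ W := hTW (by simp)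
    rw [mem_image]
    rcases lt_or_gt_of_ne hxy with h | h
    · exact ⟨(x, y), by rw [hP, mem_filter, mem_product]; exact ⟨⟨hx, hy⟩, h⟩, rfl⟩
    · exact ⟨(y, x), by rw [hP, mem_filter, mem_product]; exact ⟨⟨hy, hx⟩, h⟩, pair_comm y x⟩
  have hinj : Set.InjOn (fun x : ℕ × ℕ => ({x.1, x.2} : Finset ℕ)) (P : Set (ℕ × ℕ)) := by
    rintro ⟨x, y⟩ h1 ⟨x', y'⟩ h2 h
    rw [mem_coe, hP, mem_filter] at h1 h2
    simp only at h1 h2 h
    have a1 : x ∈ ({x', y'} : Finset ℕ) := by rw [← h]; simp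
    have a2 : y ∈ ({x', y'} : Finset ℕ) := by rw [← h]; simp
    have a3 : x' ∈ ({x, y} : Finset ℕ) := by rw [h]; simp
    rw [mem_insert, mem_singleton] at a1 a2 a3
    have b1 : x = x' := by omega
    have b2 : y = y' := by omega
    rw [b1, b2]
  refine (sum_le_sum_of_subset_of_nonneg hsub fun _ _ _ => hg _).trans ?_
  rw [sum_image hinj, hP, sum_filter, sum_product]
  apply sum_le_sum; intro m _
  apply sum_le_sum; intro m2 _
  by_cases h : m < m2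
  · rw [if_pos h, if_pos h.ne, prod_pair h.ne]
  · rw [if_neg h]
    split_ifs
    · exact hg _
    · exact le_rfl

lemma CC_le_N22 (L a b : ℕ) : CC 2 L a b ≤ N22 (Wn a L) (Wn b L) := by
  unfold CC N22
  have h1 := sum_two_le (Wn a L) (fun x => ∑ R ∈ (Wn b L).powersetCard 2, sqi (x * ∏ n ∈ R, n))
    (fun x => sum_nonneg fun _ _ => sqi_nonneg _)
  refine h1.trans ?_
  apply sum_le_sum; intro m _
  apply sum_le_sum; intro m2 _
  have h2 := sum_two_le (Wn b L) (fun y => sqi (m * m2 * y)) (fun y => sqi_nonneg _)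
  by_cases h : m ≠ m2
  · rw [if_pos h]
    refine h2.trans ?_
    apply sum_le_sum; intro n _
    apply sum_le_sum; intro n2 _
    by_cases h3 : n ≠ n2
    · rw [if_pos h3]
      unfold sqi
      rw [show m * m2 * (n * n2) = m * m2 * n * n2 by ring]
      by_cases h4 : IsSquare (m * m2 * n * n2)
      · rw [if_pos h4, if_pos ⟨h, h3, h4⟩]
      · rw [if_neg h4]
        split_ifs <;> norm_num
    · rw [if_neg h3]
      split_ifs <;> norm_num
  · rw [if_neg h]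
    exact sum_nonneg fun _ _ => sum_nonneg fun _ _ => by split_ifs <;> norm_num

/-- **CNT**: pairs of pairs with square product in two windows. -/
theorem t_CNT : Pool.Agent.L0h54.VR.CNT := by
  intro ε hε
  obtain ⟨e, he⟩ : ∃ e : ℝ, e = ε / 3 := ⟨_, rfl⟩
  have he0 : 0 < e := by rw [he]; positivity
  obtain ⟨C0, hC0, hC0'⟩ := Helper112.divisor_bound e he0
  refine ⟨28 * (C0 * 9 ^ e) * (1 + 1 / e), by positivity, ?_⟩
  intro N L hN hL hLN
  have hN0 : (0:ℝ) < N := by exact_mod_cast hN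
  have hN1 : (1:ℝ) ≤ N := by exact_mod_cast hN
  have hL0 : (0:ℝ) < L := by exact_mod_cast hL
  have hLN' : (L:ℝ) ≤ N := by exact_mod_cast hLN
  obtain ⟨T, hT⟩ : ∃ T : ℝ, T = C0 * (9 * (N:ℝ) ^ 2) ^ e := ⟨_, rfl⟩
  have hT0 : 0 ≤ T := by rw [hT]; positivity
  have hTd : ∀ r : ℕ, 1 ≤ r → r ≤ 9 * N ^ 2 → (r.divisors.card : ℝ) ≤ T := by
    intro r hr hr9
    refine (hC0' r hr).trans ?_
    rw [hT]
    have h1 : (r:ℝ) ≤ 9 * (N:ℝ) ^ 2 := by exact_mod_cast hr9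
    exact mul_le_mul_of_nonneg_left (Real.rpow_le_rpow (Nat.cast_nonneg _) h1 he0.le) hC0.le
  have h1 : ∀ a ∈ Ico N (2 * N), ∑ b ∈ Ico N (2 * N), CC 2 L a b ≤
      28 * T * (L:ℝ) ^ 3 * (1 + Real.log L) := by
    intro a ha
    rw [mem_Ico] at ha
    exact (sum_le_sum fun b _ => CC_le_N22 L a b).trans
      (N22_avg N L a hN hL hLN ha.1 ha.2 T hT0 hTd)
  refine (sum_le_sum h1).trans ?_
  rw [sum_const, Nat.card_Ico, nsmul_eq_mul, show 2 * N - N = N by omega]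
  have hlog : 1 + Real.log L ≤ (1 + 1 / e) * (N:ℝ) ^ e := by
    have a1 : Real.log L ≤ (L:ℝ) ^ e / e := Real.log_le_rpow_div hL0.le he0
    have a2 : (L:ℝ) ^ e ≤ (N:ℝ) ^ e := Real.rpow_le_rpow hL0.le hLN' he0.le
    have a3 : (1:ℝ) ≤ (N:ℝ) ^ e := Real.one_le_rpow hN1 he0.le
    have a4 : (L:ℝ) ^ e / e ≤ (N:ℝ) ^ e / e := div_le_div_of_nonneg_right a2 he0.le
    have e1 : (1 + 1 / e) * (N:ℝ) ^ e = (N:ℝ) ^ e + (N:ℝ) ^ e / e := by ring
    rw [e1]
    linarith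
  have hTe : T = C0 * 9 ^ e * ((N:ℝ) ^ e * (N:ℝ) ^ e) := by
    rw [hT, Real.mul_rpow (by norm_num) (by positivity), sq, Real.mul_rpow hN0.le hN0.le]
    ring
  have hpow : (N:ℝ) ^ (1 + ε) = N * ((N:ℝ) ^ e * (N:ℝ) ^ e * (N:ℝ) ^ e) := by
    rw [← Real.rpow_add hN0, ← Real.rpow_add hN0]
    nth_rewrite 2 [← Real.rpow_one (N:ℝ)]
    rw [← Real.rpow_add hN0]
    congr 1
    rw [he]; ring
  calc (N:ℝ) * (28 * T * (L:ℝ) ^ 3 * (1 + Real.log L)) ≤
      N * (28 * T * (L:ℝ) ^ 3 * ((1 + 1 / e) * (N:ℝ) ^ e)) := by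
        apply mul_le_mul_of_nonneg_left _ hN0.le
        exact mul_le_mul_of_nonneg_left hlog (by positivity)
    _ = _ := by rw [hTe, hpow]; ring

end Pool.Agent.L0h92.VR
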